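import Mathlib

/-!
# Semisimplicity on the endomorphisms implies semisimplicity
-/

set_option autoImplicit false

namespace TFU

open Matrix

/-- If a set `N` of matrices acts semisimply on the matrices by brackets, it acts semisimply on the vectors. -/
theorem ss_vec {κ : Type*} [Fintype κ] [DecidableEq κ] (N : Set (Matrix κ κ ℂ))
    (hss : ∀ W : Submodule ℂ (Matrix κ κ ℂ), (∀ X ∈ N, ∀ A ∈ W, X * A - A * X ∈ W) →
      ∃ W' : Submodule ℂ (Matrix κ κ ℂ), (∀ X ∈ N, ∀ A ∈ W', X * A - A * X ∈ W') ∧ IsCompl W W')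
    (W : Submodule ℂ (κ → ℂ)) (hW : ∀ X ∈ N, ∀ w ∈ W, X *ᵥ w ∈ W) :
    ∃ W' : Submodule ℂ (κ → ℂ), IsCompl W W' ∧ ∀ X ∈ N, ∀ w ∈ W', X *ᵥ w ∈ W' := by
  classical
  -- the matrices which map everything to `W` and kill `W`
  let A₀ : Submodule ℂ (Matrix κ κ ℂ) :=
    { carrier := {u | (∀ v, u *ᵥ v ∈ W) ∧ ∀ w ∈ W, u *ᵥ w = 0}
      add_mem' := by
        rintro u u' ⟨h1, h2⟩ ⟨h1', h2'⟩
        refine ⟨fun v => ?_, fun w hw => ?_⟩
        · rw [Matrix.add_mulVec]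
          exact W.add_mem (h1 v) (h1' v)
        · rw [Matrix.add_mulVec, h2 w hw, h2' w hw, add_zero]
      zero_mem' := ⟨fun v => by rw [Matrix.zero_mulVec]; exact W.zero_mem, fun w _ => Matrix.zero_mulVec w⟩
      smul_mem' := by
        rintro c u ⟨h1, h2⟩
        refine ⟨fun v => ?_, fun w hw => ?_⟩
        · rw [Matrix.smul_mulVec]
          exact W.smul_mem c (h1 v)
        · rw [Matrix.smul_mulVec, h2 w hw, smul_zero] }
  have hA₀ : ∀ u, u ∈ A₀ ↔ (∀ v, u *ᵥ v ∈ W) ∧ ∀ w ∈ W, u *ᵥ w = 0 := fun _ => Iff.rfl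
  obtain ⟨U, hU, hc⟩ := hss A₀ (by
    rintro X hX u ⟨h1, h2⟩
    refine ⟨fun v => ?_, fun w hw => ?_⟩
    · rw [Matrix.sub_mulVec, ← Matrix.mulVec_mulVec, ← Matrix.mulVec_mulVec]
      exact W.sub_mem (hW X hX _ (h1 v)) (h1 _)
    · rw [Matrix.sub_mulVec, ← Matrix.mulVec_mulVec, ← Matrix.mulVec_mulVec, h2 w hw, h2 _ (hW X hX w hw),
        Matrix.mulVec_zero, sub_zero])
  -- a projection to `W`
  obtain ⟨π, hπ⟩ := Submodule.exists_isCompl W
  let p : (κ → ℂ) →ₗ[ℂ] (κ → ℂ) := W.subtype ∘ₗ Submodule.linearProjOfIsCompl W π hπ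
  have hp1 : ∀ v, p v ∈ W := fun v => (Submodule.linearProjOfIsCompl W π hπ v).2
  have hp2 : ∀ w ∈ W, p w = w := by
    intro w hw
    exact congrArg Subtype.val (Submodule.linearProjOfIsCompl_apply_left hπ ⟨w, hw⟩)
  let P : Matrix κ κ ℂ := LinearMap.toMatrix' p
  have hP : ∀ v, P *ᵥ v = p v := fun v => LinearMap.toMatrix'_mulVec p v
  obtain ⟨a, ha, u, hu, hau⟩ := Submodule.mem_sup.1 (by
    rw [hc.sup_eq_top]
    exact Submodule.mem_top : P ∈ A₀ ⊔ U)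
  have hu1 : ∀ v, u *ᵥ v ∈ W := by
    intro v
    have h1 : u *ᵥ v = P *ᵥ v - a *ᵥ v := by
      rw [← hau, Matrix.add_mulVec, add_sub_cancel_left]
    rw [h1, hP]
    exact W.sub_mem (hp1 v) (((hA₀ a).1 ha).1 v)
  have hu2 : ∀ w ∈ W, u *ᵥ w = w := by
    intro w hw
    have h1 : u *ᵥ w = P *ᵥ w - a *ᵥ w := by
      rw [← hau, Matrix.add_mulVec, add_sub_cancel_left]
    rw [h1, hP, hp2 w hw, ((hA₀ a).1 ha).2 w hw, sub_zero]
  have hu3 : ∀ X ∈ N, X * u = u * X := by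
    intro X hX
    have h1 : X * u - u * X ∈ A₀ := by
      refine ⟨fun v => ?_, fun w hw => ?_⟩
      · rw [Matrix.sub_mulVec, ← Matrix.mulVec_mulVec, ← Matrix.mulVec_mulVec]
        exact W.sub_mem (hW X hX _ (hu1 v)) (hu1 _)
      · rw [Matrix.sub_mulVec, ← Matrix.mulVec_mulVec, ← Matrix.mulVec_mulVec, hu2 w hw, hu2 _ (hW X hX w hw), sub_self]
    have h2 : X * u - u * X ∈ U := hU X hX u hu
    exact sub_eq_zero.1 (Submodule.disjoint_def.1 hc.disjoint _ h1 h2)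
  refine ⟨LinearMap.ker u.mulVecLin, ⟨?_, ?_⟩, fun X hX w hw => ?_⟩
  · rw [Submodule.disjoint_def]
    intro w hw hw'
    rw [LinearMap.mem_ker, Matrix.mulVecLin_apply, hu2 w hw] at hw'
    exact hw'
  · rw [codisjoint_iff, Submodule.eq_top_iff']
    intro v
    refine Submodule.mem_sup.2 ⟨u *ᵥ v, hu1 v, v - u *ᵥ v, ?_, by abel⟩
    rw [LinearMap.mem_ker, Matrix.mulVecLin_apply, Matrix.mulVec_sub, hu2 _ (hu1 v), sub_self]
  · rw [LinearMap.mem_ker, Matrix.mulVecLin_apply] at hw ⊢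
    rw [Matrix.mulVec_mulVec, ← hu3 X hX, ← Matrix.mulVec_mulVec, hw, Matrix.mulVec_zero]

end TFU
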