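import Pool.Agent.Lib.MP_021685_ag.UT.BData

/-! LEAF F3 (medium).  The derivation `DX M` kills the products of pairings which are killed by `M`.

`DX M T j = ∑ s, ∑ k, T (update j s ((j s).1, k)) * M k (j s).2` (`MP_802513_ag/UMat.lean`), `prT N a b y z = if y.1 = a ∧ z.1 = b then N y.2 z.2 else 0`,
`NF.pairIdx t ε` = the index `2 t + ε` of `Fin (2 * i)`; `NF.pairIdx_injective`, `NF.exists_pairIdx` (`MP_021685_ag/UT/TDefs.lean`).

PROOF.  The slots `s : Fin (2 * i)` are the `x (pairIdx t 0)`, `x (pairIdx t 1)`, `t : Fin i` (a bijection `Fin i × Fin 2 ≃ Fin (2 * i)`; `Equiv.sum_comp`,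
`Fintype.sum_prod_type`, `Fin.sum_univ_two`).  For fixed `t` only the factor of `t` of the product changes (`Finset.mul_prod_erase`, `Function.update_of_ne`,
`NF.pairIdx_injective`), so the two slots of `t` give `(∏ of the other factors) * (∑ k, prT (N t) (a t) (b t) (y.1, k) z * M k y.2 + ∑ k, prT (N t) (a t) (b t) y (z.1, k) * M k z.2)`
with `y = j (x (pairIdx t 0))`, `z = j (x (pairIdx t 1))`.  If not (`y.1 = a t ∧ z.1 = b t`) both sums are zero; otherwise they are the entry `(y.2, z.2)` of `Mᵀ * N t + N t * M = 0`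
(`Matrix.mul_apply`, `Matrix.transpose_apply`).  MODEL: `MP_802513_agU/CHg.lean` (`CHg_pair` and the first half of `DX_genT`, the slots `q (inl (μ, 0))`, `q (inl (μ, 1))`). -/

set_option autoImplicit false

namespace TFU

open Matrix Function Module Pool.Agent.Lib.MP_802513_ag Pool.Agent.Lib.MP_021685_ag Pool.Agent.Lib.MP_021685_ag.UT

private theorem F3_pair {K A : Type} [Fintype K] [DecidableEq A] (N M : Matrix K K ℂ) (a b : A)
    (hM : Mᵀ * N + N * M = 0) (y z : A × K) :
    (∑ k, prT N a b (y.1, k) z * M k y.2) + ∑ k, prT N a b y (z.1, k) * M k z.2 = 0 := by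
  unfold prT
  by_cases h : y.1 = a ∧ z.1 = b
  · simp only [if_pos h]
    have h1 := congrFun (congrFun hM y.2) z.2
    rw [Matrix.add_apply, Matrix.mul_apply, Matrix.mul_apply, Matrix.zero_apply] at h1
    simp only [Matrix.transpose_apply] at h1
    rw [← h1]
    congr 1
    exact Finset.sum_congr rfl fun k _ => mul_comm _ _
  · simp only [if_neg h, zero_mul, Finset.sum_const_zero, add_zero]

theorem dx_prod {K A : Type} [Fintype K] [DecidableEq K] [DecidableEq A] {i : ℕ} (x : Equiv.Perm (Fin (2 * i)))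
    (N : Fin i → Matrix K K ℂ) (a b : Fin i → A) (M : Matrix K K ℂ) (hM : ∀ t, Mᵀ * N t + N t * M = 0)
    (j : Fin (2 * i) → A × K) :
    DX M (fun j => ∏ t, prT (N t) (a t) (b t) (j (x (NF.pairIdx t 0))) (j (x (NF.pairIdx t 1)))) j = 0 := by
  classical
  let e : Fin i × Fin 2 → Fin (2 * i) := fun q => x (NF.pairIdx q.1 q.2)
  have he : Function.Bijective e := by
    refine ⟨fun q q' h => ?_, fun s => ?_⟩
    · have h1 := NF.pairIdx_injective (x.injective h)
      exact Prod.ext h1.1 h1.2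
    · obtain ⟨t, ε, h⟩ := NF.exists_pairIdx (x.symm s)
      refine ⟨(t, ε), ?_⟩
      show x (NF.pairIdx t ε) = s
      rw [h, Equiv.apply_symm_apply]
  unfold DX
  rw [← (Equiv.ofBijective e he).sum_comp, Fintype.sum_prod_type]
  refine Finset.sum_eq_zero fun t _ => ?_
  rw [Fin.sum_univ_two]
  show (∑ k, (∏ t', prT (N t') (a t') (b t')
      (update j (x (NF.pairIdx t 0)) ((j (x (NF.pairIdx t 0))).1, k) (x (NF.pairIdx t' 0)))
      (update j (x (NF.pairIdx t 0)) ((j (x (NF.pairIdx t 0))).1, k) (x (NF.pairIdx t' 1)))) *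
        M k (j (x (NF.pairIdx t 0))).2) +
    ∑ k, (∏ t', prT (N t') (a t') (b t')
      (update j (x (NF.pairIdx t 1)) ((j (x (NF.pairIdx t 1))).1, k) (x (NF.pairIdx t' 0)))
      (update j (x (NF.pairIdx t 1)) ((j (x (NF.pairIdx t 1))).1, k) (x (NF.pairIdx t' 1)))) *
        M k (j (x (NF.pairIdx t 1))).2 = 0
  obtain ⟨R, hR⟩ : ∃ R : ℂ, R = ∏ t' ∈ Finset.univ.erase t, prT (N t') (a t') (b t')
      (j (x (NF.pairIdx t' 0))) (j (x (NF.pairIdx t' 1))) := ⟨_, rfl⟩
  have hoth : ∀ (ε : Fin 2) (v : A × K), (∏ t' ∈ Finset.univ.erase t, prT (N t') (a t') (b t')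
      (update j (x (NF.pairIdx t ε)) v (x (NF.pairIdx t' 0)))
      (update j (x (NF.pairIdx t ε)) v (x (NF.pairIdx t' 1)))) = R := by
    intro ε v
    rw [hR]
    refine Finset.prod_congr rfl fun t' ht' => ?_
    have h1 : ∀ δ : Fin 2, update j (x (NF.pairIdx t ε)) v (x (NF.pairIdx t' δ)) = j (x (NF.pairIdx t' δ)) := by
      intro δ
      refine update_of_ne (fun h => ?_) _ _
      exact Finset.ne_of_mem_erase ht' (NF.pairIdx_injective (x.injective h)).1
    rw [h1, h1]
  have h01 : x (NF.pairIdx t 0) ≠ x (NF.pairIdx t 1) := by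
    intro h
    have h1 := (NF.pairIdx_injective (x.injective h)).2
    exact absurd h1 (by decide)
  have e0 : ∀ k, (∏ t', prT (N t') (a t') (b t')
      (update j (x (NF.pairIdx t 0)) ((j (x (NF.pairIdx t 0))).1, k) (x (NF.pairIdx t' 0)))
      (update j (x (NF.pairIdx t 0)) ((j (x (NF.pairIdx t 0))).1, k) (x (NF.pairIdx t' 1)))) =
      prT (N t) (a t) (b t) ((j (x (NF.pairIdx t 0))).1, k) (j (x (NF.pairIdx t 1))) * R := by
    intro k
    rw [← Finset.mul_prod_erase Finset.univ _ (Finset.mem_univ t), hoth, update_self, update_of_ne h01.symm]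
  have e1 : ∀ k, (∏ t', prT (N t') (a t') (b t')
      (update j (x (NF.pairIdx t 1)) ((j (x (NF.pairIdx t 1))).1, k) (x (NF.pairIdx t' 0)))
      (update j (x (NF.pairIdx t 1)) ((j (x (NF.pairIdx t 1))).1, k) (x (NF.pairIdx t' 1)))) =
      prT (N t) (a t) (b t) (j (x (NF.pairIdx t 0))) ((j (x (NF.pairIdx t 1))).1, k) * R := by
    intro k
    rw [← Finset.mul_prod_erase Finset.univ _ (Finset.mem_univ t), hoth, update_self, update_of_ne h01]
  simp only [e0, e1]
  have h2 := F3_pair (N t) M (a t) (b t) (hM t) (j (x (NF.pairIdx t 0))) (j (x (NF.pairIdx t 1)))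
  have h3 : ∀ (f g : K → ℂ), (∑ k, f k * R * g k) = R * ∑ k, f k * g k := by
    intro f g
    rw [Finset.mul_sum]
    exact Finset.sum_congr rfl fun k _ => by ring
  rw [h3 (fun k => prT (N t) (a t) (b t) ((j (x (NF.pairIdx t 0))).1, k) (j (x (NF.pairIdx t 1)))),
    h3 (fun k => prT (N t) (a t) (b t) (j (x (NF.pairIdx t 0))) ((j (x (NF.pairIdx t 1))).1, k)), ← mul_add, h2, mul_zero]

end TFU
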