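import Pool.Agent.Lib.MP_021685_agTF.F2
import Pool.Agent.Lib.MP_021685_agTF.F3

/-!
# Tate classes on abelian varieties with commutative endomorphism algebra
-/

set_option autoImplicit false
set_option linter.unusedSectionVars false

noncomputable section

open Matrix Function Module Pool.Agent.Lib.MP_802513_ag Pool.Agent.Lib.MP_802513_ag.W Pool.Agent.Lib.MP_802513_agH
  Pool.Agent.Lib.MP_802513_agU Pool.Agent.Lib.MP_802513_agS Pool.Agent.Lib.MP_021685_agS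
  Pool.Agent.Lib.MP_021685_agP Pool.Agent.Lib.MP_021685_agQ Pool.Agent.Lib.MP_021685_ag
open scoped TensorProduct

namespace TFU

/-- The pairing matrices are skew for the conjugates of `J`. -/
theorem skew_conj {K E : Type*} [Fintype K] [DecidableEq K] [CommRing E] (D' : WData K E) (σ : ℂ ≃+* ℂ) (x : E) :
    (D'.J.map σ)ᵀ * ((McHom D' x)ᵀ * D'.Gc) + ((McHom D' x)ᵀ * D'.Gc) * D'.J.map σ = 0 := by
  have hc : ∀ N : Matrix K K ℚ, (cq N).map σ = cq N := by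
    intro N
    ext k l
    rw [Matrix.map_apply, cq_apply]
    exact map_ratCast σ (N k l)
  have h1 : D'.J.map σ * McHom D' x = McHom D' x * D'.J.map σ := by
    have h := congrArg (fun M => M.map (σ : ℂ →+* ℂ)) (D'.J_comm x)
    simp only [Matrix.map_mul] at h
    have e1 : (cq (D'.M x)).map (σ : ℂ →+* ℂ) = cq (D'.M x) := hc _
    rw [e1] at h
    exact h
  have h2 : (D'.J.map σ)ᵀ * D'.Gc + D'.Gc * D'.J.map σ = 0 := by
    have h := congrArg (fun M => M.map (σ : ℂ →+* ℂ)) D'.J_skew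
    simp only [Matrix.map_mul, Matrix.map_add (σ : ℂ →+* ℂ) (map_add _), Matrix.map_zero (σ : ℂ →+* ℂ) (map_zero _)] at h
    have e1 : (cq D'.G).map (σ : ℂ →+* ℂ) = cq D'.G := hc _
    rw [e1] at h
    exact h
  have h3 : (D'.J.map σ)ᵀ * (McHom D' x)ᵀ = (McHom D' x)ᵀ * (D'.J.map σ)ᵀ := by
    rw [← Matrix.transpose_mul, ← Matrix.transpose_mul, h1]
  rw [← Matrix.mul_assoc, h3, Matrix.mul_assoc, Matrix.mul_assoc, ← Matrix.mul_add, h2, Matrix.mul_zero]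

/-- The derivation is linear. -/
theorem dx_sum {K A S ι : Type*} [Fintype K] [DecidableEq K] [Fintype S] [DecidableEq S] [Fintype ι]
    (X : Matrix K K ℂ) (c : ι → ℂ) (F : ι → (S → A × K) → ℂ) (j : S → A × K) :
    DX X (fun j => ∑ x, c x * F x j) j = ∑ x, c x * DX X (F x) j := by
  unfold DX
  simp only [Finset.sum_mul, Finset.mul_sum]
  refine (Finset.sum_congr rfl fun s _ => Finset.sum_comm).trans (Finset.sum_comm.trans ?_)
  exact Finset.sum_congr rfl fun x _ => Finset.sum_congr rfl fun s _ => Finset.sum_congr rfl fun k _ => by rw [mul_assoc]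

variable {V : Type*} [AddCommGroup V] [Module ℂ V] {L : AddSubgroup V}

/-- **The Mumford-Tate conjecture, in terms of the signature.** -/
theorem tate_of_signature (hX : IsAbelianVariety L) {γ : Pool.Agent.Lib.MP_021685_agV.HSpace L}
    {c : Pool.Agent.Lib.MP_021685_agV.HEnd L → ℂ}
    (hγ : Pool.Agent.Lib.MP_021685_agV.IsGaloisLie L γ c)
    {E : Type*} [CommRing E] [Algebra ℚ E] [Module.Finite ℚ E] [IsReduced E] {ι : E →+* Module.End ℂ V}
    (hι : HasEndRing L ι)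
    (hC : ∀ f : E →+* ℂ, ∃ σ : ℂ ≃+* ℂ,
      Nat.Coprime (mult ι ((σ : ℂ →+* ℂ).comp f)) (mult ι ((σ : ℂ →+* ℂ).comp ((starRingEnd ℂ).comp f))))
    (hsep : ∀ f h : E →+* ℂ, (∀ σ : ℂ ≃+* ℂ, mult ι ((σ : ℂ →+* ℂ).comp f) = mult ι ((σ : ℂ →+* ℂ).comp h)) → f = h)
    (hS : ∀ f g : E →+* ℂ, g ≠ f → g ≠ (starRingEnd ℂ).comp f →
      (∃ σ : ℂ ≃+* ℂ, mult ι ((σ : ℂ →+* ℂ).comp f) ≠ 0 ∧ mult ι ((σ : ℂ →+* ℂ).comp ((starRingEnd ℂ).comp f)) ≠ 0) →
      (∀ σ : ℂ ≃+* ℂ, (mult ι ((σ : ℂ →+* ℂ).comp f) ≠ 0 ∧ mult ι ((σ : ℂ →+* ℂ).comp ((starRingEnd ℂ).comp f)) ≠ 0) ∨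
          (mult ι ((σ : ℂ →+* ℂ).comp g) ≠ 0 ∧ mult ι ((σ : ℂ →+* ℂ).comp ((starRingEnd ℂ).comp g)) ≠ 0) →
        mult ι ((σ : ℂ →+* ℂ).comp f) = mult ι ((σ : ℂ →+* ℂ).comp g)) → False)
    (hN : ∀ a : (E →+* ℂ) → ℤ, (∀ f, a ((starRingEnd ℂ).comp f) = - a f) →
      (∀ σ : ℂ ≃+* ℂ, ∑ f : E →+* ℂ, a f * ((mult ι ((σ : ℂ →+* ℂ).comp f) : ℤ) -
        mult ι ((σ : ℂ →+* ℂ).comp ((starRingEnd ℂ).comp f))) = 0) → a = 0) :
    Pool.Agent.Lib.MP_021685_agV.TateAreHodge γ c := by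
  obtain ⟨g, b, -, hb⟩ := Pool.Agent.Lib.MP_802513_agS.exists_basis hX.lattice
  obtain ⟨e, he⟩ := exists_latBasis ℂ hb
  obtain ⟨B, hB⟩ := hX.polarized
  obtain ⟨D, hJ, hG⟩ := Pool.Agent.Lib.MP_802513_agH.exists_pdata b hb hB
  obtain ⟨D', hM, hJ', hG'⟩ := W.exists_data b hb hB hι
  obtain ⟨P, hP⟩ := hγ.toQ.exists_proj
  have h := hγ.toQ.geoP hP
  have hGG : D'.Gc = D.Gc := hG'.trans hG.symm
  have hJJ : D'.J = D.J := hJ'.trans hJ.symm
  obtain ⟨T, hT1, hT2, hT3, hT4, hT5, hT6⟩ := exists_tdata h hb he hJ D' hJ' hGG hM hsep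
  intro n i θ hθ
  refine Pool.Agent.Lib.MP_021685_agV.isHodgeComb_iff.2 (mem_ext_of_J hb he hJ fun σ => ?_)
  have hk : ∀ X ∈ skewPart e D γ, ∀ j, DX X (coordL e n (2 * i) θ) j = 0 := by
    intro X hX j
    rw [DX_lift, h.kills hb he hJ hX (Pool.Agent.Lib.MP_021685_agV.isTate_iff.1 hθ)]
    rfl
  obtain ⟨c', hc'⟩ := T.main (1 : RingAut ℂ) (A := Fin n) (coordL e n (2 * i) θ)
    (fun s t hst j => by
      have h1 := (Pool.Agent.Lib.MP_021685_agQ.coordL_hasC e θ).isAlt (Equiv.swap s t) j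
      rw [Equiv.Perm.sign_swap hst, Units.val_neg, Units.val_one, neg_smul, one_smul] at h1
      exact h1)
    (fun s j => hk _ (hT5 s) j) (fun X hX j => hk _ (hT6 X hX) j)
    (fun f => by
      obtain ⟨σ, hσ⟩ := hC f
      refine ⟨σ.symm, ?_⟩
      rw [hT4, hT4, hT3]
      exact hσ)
    (fun f g hgf hgc hex hall => by
      rw [hT3] at hgc
      exfalso
      refine hS f g hgf hgc ?_ fun σ hσ => ?_
      · obtain ⟨s, hs⟩ := hex
        rw [hT4, hT4, hT3] at hs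
        exact ⟨s.symm, hs⟩
      · have h1 := hall σ.symm
        rw [hT4, hT4, hT4, hT4, hT3, hT3] at h1
        exact h1 hσ)
    (fun a ha hs _ _ => by
      refine hN a (fun f => ?_) fun σ => ?_
      · rw [← hT3]
        exact ha f
      · have h1 := hs σ.symm
        simp only [hT4, hT3] at h1
        exact h1)
  rw [show coordL e n (2 * i) θ = fun j => ∑ x, c' x * ∏ t, UT.prT ((T.Mc (W.eps E (x.2 t).1))ᵀ * T.Gc)
      (x.2 t).2.1 (x.2 t).2.2 (j (x.1 (NF.pairIdx t 0))) (j (x.1 (NF.pairIdx t 1))) from funext hc']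
  funext j
  rw [← DX_lift, dx_sum]
  refine Finset.sum_eq_zero fun x _ => ?_
  rw [dx_prod x.1 _ _ _ _ (fun t => ?_) j, mul_zero]
  rw [hT1, hT2, ← hGG, ← hJJ]
  exact skew_conj D' σ _

end TFU
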