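import Pool.Agent.Lib.MP_802513_ag.SDDefs

/-! LEAF F7 (medium, linear algebra with dependent families).  A subfamily has no other endomorphisms.

PROOF.  Let `S` be an endomorphism of `∀ s, V (c s)` which preserves the product of the `L (c s)`.  Let `S'` be the endomorphism of `∀ t, V t` with `S' v (c s) = S (fun s => v (c s)) s` and `S' v t = 0`
for `t` not of the form `c s` (e.g. `S' v t = if h : ∃ s, c s = t then h.choose_spec ▸ S (fun s => v (c s)) h.choose else 0`; prove first the lemma `S' v (c s) = S (fun s => v (c s)) s` with the injectivity of `c`;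
additivity and linearity by cases on `t = c s`).  It preserves the product of the `L t`; so `h` gives `e : ∀ t, E t` with `S' v t = ι t (e t) (v t)`.  For `v : ∀ s, V (c s)` choose
`v' : ∀ t, V t` with `v' (c s) = v s` (same construction): `S v s = S' v' (c s) = ι (c s) (e (c s)) (v s)`. -/

set_option autoImplicit false

namespace TFU

open Module Pool.Agent.Lib.MP_802513_ag

private def F7_cast {T : Type} {V : T → Type} [∀ t, AddCommGroup (V t)] [∀ t, Module ℂ (V t)] {t t' : T}
    (h : t = t') : V t →ₗ[ℂ] V t' := h ▸ LinearMap.id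

private theorem F7_cast_apply {T T' : Type} {c : T' → T} (hc : Function.Injective c) {V : T → Type}
    [∀ t, AddCommGroup (V t)] [∀ t, Module ℂ (V t)] (w : ∀ s, V (c s)) {s s' : T'} (h : c s' = c s) :
    F7_cast (V := V) h (w s') = w s := by
  have h1 := hc h
  subst h1
  rfl

open Classical in
private noncomputable def F7_ext {T T' : Type} (c : T' → T) (V : T → Type)
    [∀ t, AddCommGroup (V t)] [∀ t, Module ℂ (V t)] : (∀ s, V (c s)) →ₗ[ℂ] (∀ t, V t) :=
  LinearMap.pi fun t => if h : ∃ s, c s = t then (F7_cast (V := V) h.choose_spec).comp (LinearMap.proj h.choose) else 0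

private theorem F7_ext_apply {T T' : Type} {c : T' → T} (hc : Function.Injective c) {V : T → Type}
    [∀ t, AddCommGroup (V t)] [∀ t, Module ℂ (V t)] (w : ∀ s, V (c s)) (s : T') : F7_ext c V w (c s) = w s := by
  have h : ∃ s', c s' = c s := ⟨s, rfl⟩
  unfold F7_ext
  rw [LinearMap.pi_apply, dif_pos h]
  exact F7_cast_apply hc w h.choose_spec

private theorem F7_ext_zero {T T' : Type} {c : T' → T} {V : T → Type}
    [∀ t, AddCommGroup (V t)] [∀ t, Module ℂ (V t)] (w : ∀ s, V (c s)) (t : T) (h : ¬ ∃ s, c s = t) :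
    F7_ext c V w t = 0 := by
  unfold F7_ext
  rw [LinearMap.pi_apply, dif_neg h]
  rfl

theorem no_other_sub {T T' : Type} (c : T' → T) (hc : Function.Injective c) {E : T → Type} [∀ t, Field (E t)]
    {V : T → Type} [∀ t, AddCommGroup (V t)] [∀ t, Module ℂ (V t)] (L : ∀ t, AddSubgroup (V t))
    (ι : ∀ t, E t →+* Module.End ℂ (V t)) (h : HasNoOtherEndomorphisms L ι) :
    HasNoOtherEndomorphisms (fun s => L (c s)) (fun s => ι (c s)) := by
  intro S hS
  let res : (∀ t, V t) →ₗ[ℂ] (∀ s, V (c s)) := LinearMap.pi fun s => LinearMap.proj (c s)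
  have hres : ∀ w : ∀ s, V (c s), res (F7_ext c V w) = w := fun w => funext fun s => F7_ext_apply hc w s
  obtain ⟨e, he⟩ := h ((F7_ext c V).comp (S.comp res)) (by
    intro x hx
    rw [AddSubgroup.mem_pi]
    intro t _
    rw [LinearMap.comp_apply, LinearMap.comp_apply]
    by_cases ht : ∃ s, c s = t
    · obtain ⟨s, rfl⟩ := ht
      rw [F7_ext_apply hc]
      have h1 := hS (res x) (by
        rw [AddSubgroup.mem_pi]
        intro s _
        exact (AddSubgroup.mem_pi _).1 hx (c s) (Set.mem_univ _))
      exact (AddSubgroup.mem_pi _).1 h1 s (Set.mem_univ _)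
    · rw [F7_ext_zero _ t ht]
      exact (L t).zero_mem)
  refine ⟨fun s => e (c s), fun v s => ?_⟩
  have h2 := he (F7_ext c V v) (c s)
  rw [LinearMap.comp_apply, LinearMap.comp_apply, hres, F7_ext_apply hc, F7_ext_apply hc] at h2
  exact h2

end TFU
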