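import Pool.Agent.Lib.MP_021685_agTF.F5
import Pool.Agent.Lib.MP_021685_agTF.F6p
import Pool.Agent.Lib.MP_021685_agTF.F7
import Pool.Agent.Lib.MP_021685_agTCM.CT6

/-!
# The Mumford-Tate conjecture for all products of powers
-/

set_option autoImplicit false
set_option linter.unusedSectionVars false

noncomputable section

open Module Pool.Agent.Lib.MP_802513_ag Pool.Agent.Lib.MP_802513_ag.SD Pool.Agent.Lib.MP_021685_agV MP_802513_agC
  MP_802513_agAL MP_021685_agC MP_021685_agX TCM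

namespace TFU

section flips

variable {T T' : Type} {E : T → Type} [∀ t, Field (E t)]

/-- Flips for a subfamily. -/
theorem Flips.sub (c : T' → T) (hc : Function.Injective c) (hF : Flips E) : Flips fun s => E (c s) := by
  let em' : Emb (fun s => E (c s)) → Emb E := fun f => ⟨c f.1, f.2⟩
  have hinj : Function.Injective em' := by
    rintro ⟨s, φ⟩ ⟨s', φ'⟩ h
    have h1 : s = s' := hc (congrArg Sigma.fst h)
    subst h1
    have h2 : φ = φ' := eq_of_heq (Sigma.mk.inj h).2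
    rw [h2]
  intro f
  obtain ⟨σ, h1, h2, h3⟩ := hF (em' f)
  refine ⟨σ, hinj h1, hinj h2, fun f' h4 h5 => hinj (h3 (em' f') (fun h => h4 (hinj h)) fun h => h5 (hinj h))⟩

end flips

section split

variable {T : Type} [Finite T] (A : T → AV) (n : T → ℕ)

/-- The members of the family which occur. -/
abbrev Occ : Type := {t : T // n t ≠ 0}

/-- The other factors. -/
abbrev Rest : Type := {j : (Σ t, Fin (n t)) // j.2.1 ≠ 0}

theorem Rest.ne {n : T → ℕ} (j : Rest n) : n j.1.1 ≠ 0 := by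
  have h := j.1.2.2
  omega

theorem Occ.zero {n : T → ℕ} (j : Σ t, Fin (n t)) : n j.1 ≠ 0 := by
  have h := j.2.2
  omega

/-- The product of the factors which occur. -/
abbrev LOcc : AddSubgroup (∀ t : Occ n, (A t.1).V) := AddSubgroup.pi Set.univ fun t => (A t.1).L

/-- The product of the other factors. -/
abbrev LRest : AddSubgroup (∀ j : Rest n, (A j.1.1).V) := AddSubgroup.pi Set.univ fun j => (A j.1.1).L

/-- The members of the decomposition. -/
def spF (w : (∀ t : Occ n, (A t.1).V) × (∀ j : Rest n, (A j.1.1).V)) (j : Σ t, Fin (n t)) : (A j.1).V :=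
  if h : j.2.1 = 0 then w.1 ⟨j.1, Occ.zero j⟩ else w.2 ⟨j, h⟩

variable {n} in
theorem spF_pos (w : (∀ t : Occ n, (A t.1).V) × (∀ j : Rest n, (A j.1.1).V)) (j : Σ t, Fin (n t)) (h : j.2.1 = 0) :
    spF A n w j = w.1 ⟨j.1, Occ.zero j⟩ := dif_pos h

variable {n} in
theorem spF_neg (w : (∀ t : Occ n, (A t.1).V) × (∀ j : Rest n, (A j.1.1).V)) (j : Σ t, Fin (n t)) (h : j.2.1 ≠ 0) :
    spF A n w j = w.2 ⟨j, h⟩ := dif_neg h

/-- The decomposition of a product of powers. -/
def spJ : ((∀ t : Occ n, (A t.1).V) × (∀ j : Rest n, (A j.1.1).V)) →ₗ[ℂ] (HIA.prodPow A n).V where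
  toFun w j := spF A n w j
  map_add' w w' := by
    funext j
    show spF A n (w + w') j = spF A n w j + spF A n w' j
    by_cases h : j.2.1 = 0
    · rw [spF_pos A _ j h, spF_pos A _ j h, spF_pos A _ j h]
      rfl
    · rw [spF_neg A _ j h, spF_neg A _ j h, spF_neg A _ j h]
      rfl
  map_smul' z w := by
    funext j
    show spF A n (z • w) j = z • spF A n w j
    by_cases h : j.2.1 = 0
    · rw [spF_pos A _ j h, spF_pos A _ j h]
      rfl
    · rw [spF_neg A _ j h, spF_neg A _ j h]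
      rfl

/-- The decomposition of a product of powers. -/
def spQ : (HIA.prodPow A n).V →ₗ[ℂ] ((∀ t : Occ n, (A t.1).V) × (∀ j : Rest n, (A j.1.1).V)) where
  toFun x := (fun t => x ⟨t.1, ⟨0, Nat.pos_of_ne_zero t.2⟩⟩, fun j => x j.1)
  map_add' _ _ := rfl
  map_smul' _ _ := rfl

theorem spJ_mem (w : (∀ t : Occ n, (A t.1).V) × (∀ j : Rest n, (A j.1.1).V)) (hw : w ∈ (LOcc A n).prod (LRest A n)) :
    spJ A n w ∈ (HIA.prodPow A n).L := by
  intro j _
  show spF A n w j ∈ (A j.1).L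
  by_cases h : j.2.1 = 0
  · rw [spF_pos A _ j h]
    exact hw.1 ⟨j.1, Occ.zero j⟩ trivial
  · rw [spF_neg A _ j h]
    exact hw.2 ⟨j, h⟩ trivial

theorem spQ_mem (x : (HIA.prodPow A n).V) (hx : x ∈ (HIA.prodPow A n).L) : spQ A n x ∈ (LOcc A n).prod (LRest A n) :=
  ⟨fun t _ => hx ⟨t.1, ⟨0, Nat.pos_of_ne_zero t.2⟩⟩ trivial, fun j _ => hx j.1 trivial⟩

theorem spQJ (w : (∀ t : Occ n, (A t.1).V) × (∀ j : Rest n, (A j.1.1).V)) : spQ A n (spJ A n w) = w := by
  refine Prod.ext ?_ ?_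
  · funext t
    exact spF_pos A w ⟨t.1, ⟨0, Nat.pos_of_ne_zero t.2⟩⟩ rfl
  · funext j
    exact spF_neg A w j.1 j.2

theorem spJQ (x : (HIA.prodPow A n).V) : spJ A n (spQ A n x) = x := by
  funext j
  obtain ⟨t, a, ha⟩ := j
  by_cases h : a = 0
  · subst h
    exact spF_pos A (spQ A n x) ⟨t, ⟨0, ha⟩⟩ rfl
  · exact spF_neg A (spQ A n x) ⟨t, ⟨a, ha⟩⟩ h

theorem dominated_rest : IsDominatedBy (LOcc A n) (LRest A n) := by
  classical
  have hA : IsAbelianVariety (LOcc A n) := HIA.isAV_pi fun t : Occ n => A t.1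
  have hX : IsAbelianVariety (LRest A n) := HIA.isAV_pi fun j : Rest n => A j.1.1
  have := Fintype.ofFinite (Rest n)
  have := Fintype.ofFinite (Occ n)
  refine dominated_of_sum (J := Rest n) hA hX
    (fun j => LinearMap.single ℂ (fun j : Rest n => (A j.1.1).V) j ∘ₗ
      (LinearMap.proj (⟨j.1.1, j.ne⟩ : Occ n) : (∀ t : Occ n, (A t.1).V) →ₗ[ℂ] (A j.1.1).V))
    (fun j => LinearMap.single ℂ (fun t : Occ n => (A t.1).V) ⟨j.1.1, j.ne⟩ ∘ₗ
      (LinearMap.proj j : (∀ j : Rest n, (A j.1.1).V) →ₗ[ℂ] (A j.1.1).V)) ?_ ?_ ?_ ?_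
  · intro j x hx
    exact single_mem_pi (hx ⟨j.1.1, j.ne⟩ trivial)
  · intro j x hx
    exact single_mem_pi (t := (⟨j.1.1, j.ne⟩ : Occ n)) (V := fun t : Occ n => (A t.1).V) (hx j trivial)
  · refine LinearMap.ext fun w => ?_
    funext j
    rw [LinearMap.sum_apply, Finset.sum_apply, Finset.sum_eq_single j]
    · show (Pi.single j ((Pi.single (⟨j.1.1, j.ne⟩ : Occ n) (w j) : ∀ t : Occ n, (A t.1).V) ⟨j.1.1, j.ne⟩) :
        ∀ j : Rest n, (A j.1.1).V) j = w j
      rw [Pi.single_eq_same]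
      exact Pi.single_eq_same (M := fun t : Occ n => (A t.1).V) _ _
    · intro k _ hk
      exact Pi.single_eq_of_ne (M := fun j : Rest n => (A j.1.1).V) (Ne.symm hk) _
    · intro h
      exact absurd (Finset.mem_univ _) h
  · intro j k hjk
    refine LinearMap.ext fun w => ?_
    show (Pi.single (⟨j.1.1, j.ne⟩ : Occ n) ((Pi.single k (w ⟨k.1.1, k.ne⟩) : ∀ j : Rest n, (A j.1.1).V) j) :
      ∀ t : Occ n, (A t.1).V) = 0
    rw [Pi.single_eq_of_ne hjk]
    exact Pi.single_zero _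

end split

variable {T : Type} [Finite T] {E : T → Type} [∀ t, Field (E t)] [∀ t, NumberField (E t)]
  [∀ t, NumberField.IsCMField (E t)] {A : T → AV} {ι : ∀ t, E t →+* (A t).End} {m : T → ℕ}

theorem hodge_pow (hF : Flips E) (hι : ∀ t, HasAction (A t).L (ι t) (m t))
    (hm : ∀ t, 1 ≤ m t ∧ m t ≠ 2) (hcop : ∀ t, ∃ φ : E t →+* ℂ, Nat.Coprime (mult (ι t) φ) (m t))
    (hend : HasNoOtherEndomorphisms (fun t => (A t).L) ι) (n : T → ℕ) (G : Gal (HIA.prodPow A n)) :
    G.AllTate (hodge (HIA.prodPow A n)) := by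
  have hA : IsAbelianVariety (LOcc A n) := HIA.isAV_pi fun t : Occ n => A t.1
  have hX : IsAbelianVariety (LRest A n) := HIA.isAV_pi fun j : Rest n => A j.1.1
  have key : TateAreHodge G.γ G.c :=
    tate_iso (MP_802513_agSD.S7_prod hA hX) (HIA.prodPow A n).isAV (isGalois G) (spJ A n) (spJ_mem A n) (spQ A n) (spQ_mem A n)
      (spQJ A n) (spJQ A n) fun γ' c' h' => tate_prod_cm hA hX (dominated_rest A n) h' fun γ'' c'' h'' =>
        tate_pi (E := fun t : Occ n => E t.1) (ι := fun t => ι t.1) (m := fun t => m t.1)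
          (hF.sub (fun t : Occ n => t.1) Subtype.val_injective) (fun t => (A t.1).isAV) (fun t => hι t.1)
          (fun t => hm t.1) (fun t => hcop t.1)
          (no_other_sub (fun t : Occ n => t.1) Subtype.val_injective (fun t => (A t).L) ι hend) hA h''
  exact key

/-- **The Tate conjecture for all products of powers.** -/
theorem tate_full (hF : Flips E) (hι : ∀ t, HasAction (A t).L (ι t) (m t))
    (hm : ∀ t, 1 ≤ m t ∧ m t ≠ 2) (hcop : ∀ t, ∃ φ : E t →+* ℂ, Nat.Coprime (mult (ι t) φ) (m t))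
    (hcase : (∀ t, m t = 1) ∨ HasNoOtherEndomorphisms (fun t => (A t).L) ι) (hA : HIA.Hodge A) : Tate A := by
  rcases hcase with h1 | hend
  · refine tate_of_hodge A ι (fun t => ?_) hA
    rw [← h1 t]
    exact hι t
  · intro n G k i θ hθ
    refine Submodule.span_mono ?_ (hodge_pow hF hι hm hcop hend n G k i θ hθ)
    rintro ξ ⟨η, h1, h2⟩
    exact ⟨η, alg_pow hA n k i η h1, h2⟩

end TFU
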